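import Pool.Agent.T9h42.QD.Weight
import Pool.Agent.T9h42.NF.StatementR
import Pool.Agent.T9h59.QD.RExt
import Pool.Agent.Y775.W3.TopG

set_option autoImplicit false

/-!
# The top depth part in even weight, for all fields
-/

namespace Pool.Agent.T9h11.TD

open Pool.Agent.TH358.MC Pool.Agent.T9h42.QD Pool.Agent.T9h42.NFR
open Pool.Agent.TH358.MD hiding fs_succ fs_zero_zero mplO_one mplO mplO_weight
open Pool.Agent.T9h59.QD (cls_span)
open scoped TensorProduct

section int

variable {F : Type} [Field F] {C : Type} [AddCommGroup C] [Module ℚ C] (M : MotivicI0 C F)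

theorem fs_small (z : ℕ → F) (j : ℕ) : ∀ r, r < j → fs M z j r = 0 := by
  induction j with
  | zero => intro r hr; omega
  | succ j ih =>
    intro r hr
    rw [fs_succ]
    refine Finset.sum_eq_zero fun r' hr' => ?_
    have h := Finset.mem_range.1 hr'
    rw [ih r' (by omega), map_zero, smul_zero]

theorem fs_diag (z : ℕ → F) (j : ℕ) :
    fs M z (j + 1) (j + 1) = consf (Lin M 2 (z (j + 1))) (fs M z j j) := by
  rw [fs_succ, Finset.sum_eq_single_of_mem j (Finset.mem_range.2 (Nat.lt_succ_self j))]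
  · have h : j + 1 - j + 1 = 2 := by omega
    rw [h]
    norm_num
  · intro r' hr' hne
    have h := Finset.mem_range.1 hr'
    rw [fs_small M z j r' (by omega), map_zero, smul_zero]

/-- tensors of dilogarithms -/
theorem key2 (d t : ℕ) : ∀ j, j + t = d + 1 →
    ∀ bs : List C, bs.length = t + 1 →
    (∀ b ∈ bs, ∃ w : F, w ≠ 0 ∧ b = Lin M 2 w) →
    ∀ z : ℕ → F, (∀ i, z i ≠ 0) → preL bs (fs M z j j) ∈ SM M d := by
  induction t with
  | zero =>
    intro j hj bs hbs hb z hz
    have hj' : j = d + 1 := by omega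
    subst hj'
    obtain ⟨b, rfl⟩ := List.length_eq_one_iff.1 hbs
    obtain ⟨w, hw, rfl⟩ := hb b (List.mem_singleton.2 rfl)
    change consf (Lin M 2 w) (fs M z (d + 1) (d + 1)) ∈ SM M d
    set s := d + 2 with hs
    have h1 : ∑ m ∈ Finset.Icc 2 (s + 1 - 1),
        (fun m => - consL (fs M z (d + 1) (s + 1 - m))) m (Lin M m w) ∈ SM M d := by
      set y : ℕ → F := fun i => ∏ i' ∈ Finset.Ico i (d + 2), (z i')⁻¹ with hy
      have hy0 : ∀ i, y i ≠ 0 := fun i =>
        Finset.prod_ne_zero_iff.2 fun i' _ => inv_ne_zero (hz i')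
      have hy1 : y (d + 2) = 1 := by
        rw [hy]
        change ∏ i' ∈ Finset.Ico (d + 2) (d + 2), (z i')⁻¹ = 1
        rw [Finset.Ico_self, Finset.prod_empty]
      have hyz : ∀ j, 1 ≤ j → j ≤ d + 1 → y (j + 1) / y j = z j := by
        intro j _ h2
        have h3 : y j = (z j)⁻¹ * y (j + 1) := Finset.prod_eq_prod_Ico_succ_bot (by omega) _
        rw [h3, div_eq_iff (mul_ne_zero (inv_ne_zero (hz j)) (hy0 _)), ← mul_assoc,
          mul_inv_cancel₀ (hz j), one_mul]
      have hx : w⁻¹ ≠ 0 := inv_ne_zero hw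
      rw [reindex s (fun m r' => (- consL (fs M z (d + 1) r')) (Lin M m w)) 1 le_rfl]
      refine SM_congr M d _ _ (sym_SM M d s _ hx y hy0 hy1) fun l hl => ?_
      rw [sym_one_eq M _ hx y z hy0 d s hyz l hl.1, Finset.sum_apply]
      refine Finset.sum_congr rfl fun r' _ => ?_
      rw [hy1, one_div, inv_inv, LinearMap.neg_apply, consL_apply]
    rw [Finset.sum_eq_single_of_mem 2 (Finset.mem_Icc.2 ⟨le_rfl, by omega⟩)] at h1
    · have h3 : s + 1 - 2 = d + 1 := by omega
      change (- consL (fs M z (d + 1) (s + 1 - 2))) (Lin M 2 w) ∈ SM M d at h1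
      rw [LinearMap.neg_apply, consL_apply, h3] at h1
      exact (Submodule.neg_mem_iff _).1 h1
    · intro m hm hne
      have hm' := Finset.mem_Icc.1 hm
      change (- consL (fs M z (d + 1) (s + 1 - m))) (Lin M m w) = 0
      rw [LinearMap.neg_apply, consL_apply, fs_small M z (d + 1) (s + 1 - m) (by omega), map_zero,
        neg_zero]
  | succ t ih =>
    intro j hj bs hbs hb z hz
    rcases List.eq_nil_or_concat bs with h0 | ⟨bs', b, h0⟩
    · rw [h0] at hbs
      exact absurd hbs (by simp)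
    · rw [List.concat_eq_append] at h0
      subst h0
      have hbs' : bs'.length = t + 1 := by
        rw [List.length_append] at hbs
        change bs'.length + 1 = _ at hbs
        omega
      obtain ⟨w, hw, rfl⟩ := hb b (List.mem_append_right _ (List.mem_singleton.2 rfl))
      rw [preL_append]
      have h2 := ih (j + 1) (by omega) bs' hbs'
        (fun b hb' => hb b (List.mem_append_left _ hb'))
        (Function.update z (j + 1) w) (by
          intro i
          by_cases hi : i = j + 1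
          · subst hi
            rw [Function.update_self]
            exact hw
          · rw [Function.update_of_ne hi]
            exact hz i)
      rw [fs_diag, Function.update_self, fs_congr M (Function.update z (j + 1) w) z j j
        (fun i _ h2 => Function.update_of_ne (by omega) _ _)] at h2
      exact h2

/-- the logarithms and dilogarithms -/
def S2 : Set C := {a | ∃ (n : ℕ) (x : F), 1 ≤ n ∧ n ≤ 2 ∧ x ≠ 0 ∧ a = Lin M n x}

theorem Tk_le2 (d : ℕ) : Tk (S2 M) (d + 2) ≤ SM M d := by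
  classical
  rw [Tk, Submodule.span_le]
  rintro _ ⟨b, hb, hb', rfl⟩
  by_cases h : ∀ c ∈ b, ∃ w : F, w ≠ 0 ∧ c = Lin M 2 w
  · have h1 := key2 M d (d + 1) 0 (by omega) b hb h (fun _ => 1) (fun _ => one_ne_zero)
    rw [fs_zero_zero, preL_ev] at h1
    exact h1
  · push Not at h
    obtain ⟨c, hc, hc'⟩ := h
    obtain ⟨n, x, hn, hn2, hx, rfl⟩ := hb' c hc
    have h1 : n = 1 := by
      by_contra h2
      obtain rfl : n = 2 := by omega
      exact hc' x hx rfl
    subst h1
    refine SM_congr M d 0 _ (Submodule.zero_mem _) fun l hl => ?_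
    change (0 : ℚ) = ev l b
    rw [ev_zero M.toLieCoalg _ (Lin_mem M 1 le_rfl x) b hc l hl.2]

theorem W_le (h2 : M.W 2 ≤ Submodule.span ℚ {c | ∃ x : F, x ≠ 0 ∧ c = Lin M 2 x}) (n : ℕ)
    (hn : n ≤ 2) : M.W n ≤ Submodule.span ℚ (S2 M) := by
  obtain rfl | rfl | rfl : n = 0 ∨ n = 1 ∨ n = 2 := by omega
  · rw [M.W_zero]
    exact bot_le
  · rw [← M.φ_range]
    rintro _ ⟨u, rfl⟩
    obtain ⟨q, y, hy, rfl⟩ := cls_span u
    rw [map_smul]
    refine Submodule.smul_mem _ _ ?_
    by_cases h : y = 1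
    · subst h
      have h0 : cls (1 : F) = 0 := by
        unfold cls
        rw [dif_neg one_ne_zero]
        have : Units.mk0 (1 : F) one_ne_zero = 1 := by ext; rfl
        rw [this]
        exact TensorProduct.tmul_zero _ _
      rw [h0, map_zero]
      exact Submodule.zero_mem _
    · have hx : 1 - y ≠ 0 := sub_ne_zero.2 (Ne.symm h)
      have h3 : M.φ (cls y) = - Lin M 1 (1 - y) := by
        rw [Lin_one M (1 - y) hx, neg_neg, sub_sub_cancel]
      rw [h3]
      exact Submodule.neg_mem _ (Submodule.subset_span ⟨1, 1 - y, le_rfl, by omega, hx, rfl⟩)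
  · refine h2.trans (Submodule.span_mono ?_)
    rintro _ ⟨x, hx, rfl⟩
    exact ⟨2, x, by omega, le_rfl, hx, rfl⟩

theorem top_part (h2 : M.W 2 ≤ Submodule.span ℚ {c | ∃ x : F, x ≠ 0 ∧ c = Lin M 2 x})
    (k n : ℕ) (hk : 1 ≤ k) (hn : n ≤ 2 * k) : M.W n ≤ mplO M k ⊔ M.D (k - 1) := by
  have hS := W_le M h2
  obtain rfl | h2 : k = 1 ∨ 2 ≤ k := by omega
  · rw [mplO_one]
    refine (hS n (by omega)).trans (le_trans ?_ le_sup_left)
    refine Submodule.span_mono ?_
    rintro _ ⟨n, x, h1, _, hx, rfl⟩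
    exact ⟨n, x, h1, hx, rfl⟩
  · obtain ⟨d, rfl⟩ : ∃ d, k = d + 2 := ⟨k - 2, by omega⟩
    intro a ha
    obtain ⟨Φ, hΦ, hΦ'⟩ := Y775.W3.symbolW M.toLieCoalg (S2 M) 2 hS (d + 1) n (by omega) a ha
    obtain ⟨m, hm, hm'⟩ := Tk_le2 M d hΦ
    have h2 : m - ((d : ℚ) + 2) • a ∈ M.D (d + 1) := by
      rw [char]
      intro l hl
      rw [map_sub, map_smul, hm' l hl, dyn_congr M.toLieCoalg (d + 2) l Φ
        (fun w => rn M.toLieCoalg w a) hl (fun w hw => (hΦ' w hw).symm),
        dynkin' M.toLieCoalg l (NL_ne_nil M.toLieCoalg hl) a, hl.1, smul_eq_mul]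
      push_cast
      ring
    have h4 : ((d : ℚ) + 2) • a ∈ mplO M (d + 2) ⊔ M.D (d + 2 - 1) := by
      have h5 : ((d : ℚ) + 2) • a = m - (m - ((d : ℚ) + 2) • a) := by rw [sub_sub_cancel]
      rw [h5]
      exact Submodule.sub_mem _ (Submodule.mem_sup_left hm) (Submodule.mem_sup_right h2)
    have h6 : ((d : ℚ) + 2) ≠ 0 := by positivity
    have h7 : a = ((d : ℚ) + 2)⁻¹ • (((d : ℚ) + 2) • a) := by
      rw [smul_smul, inv_mul_cancel₀ h6, one_smul]
    rw [h7]
    exact Submodule.smul_mem _ _ h4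

theorem mplO_proj (n r : ℕ) (π : C →ₗ[ℚ] C) (h1 : ∀ a ∈ M.W n, π a = a)
    (h2 : ∀ i, i ≠ n → ∀ a ∈ M.W i, π a = 0) : ∀ a ∈ mplO M r, π a ∈ mplO M r := by
  have h : mplO M r ≤ (mplO M r).comap π := by
    conv_lhs => rw [mplO]
    rw [Submodule.span_le]
    rintro _ ⟨m, a, g1, g2, g3, g4, g5, g6, rfl⟩
    change π (M.I m a) ∈ mplO M r
    by_cases hm : m = n
    · subst hm
      rw [h1 _ (M.I_mem m a g1)]
      exact Submodule.subset_span ⟨m, a, g1, g2, g3, g4, g5, g6, rfl⟩
    · rw [h2 m hm _ (M.I_mem m a g1)]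
      exact Submodule.zero_mem _
  exact h

theorem main (h2 : M.W 2 ≤ Submodule.span ℚ {c | ∃ x : F, x ≠ 0 ∧ c = Lin M 2 x})
    (r n : ℕ) (hr : 1 ≤ r) (h1 : 1 ≤ n) (hn : n ≤ 2 * r) :
    M.W n = mplW M r n ⊔ (M.D (r - 1) ⊓ M.W n) := by
  have h3 := Y775.W3.graded_form M.toLieCoalg n r (r - 1) (Nat.sub_le r 1) (mplO M r)
    ((mplO_le M r).trans (mpl_le M r)) (mplO_proj M n r) (top_part M h2 r n hr hn)
  rw [mplO_weight M r n h1] at h3
  have h4 : M.D r ⊓ M.W n = M.W n :=
    inf_eq_right.2 (Y775.W3.W_le_D_half M.toLieCoalg r n (by omega))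
  rw [h4] at h3
  exact h3

end int

end Pool.Agent.T9h11.TD
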